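import Pool.Agent.H83.X.T1

/-!
# MP_c59857_nt, Theorem X, row EXT: majorization for functions
-/

set_option autoImplicit false

open Finset

namespace Pool.Agent.H11.X

open Pool.Agent.H83.X

open Classical in
/-- indicator function -/
noncomputable def ind {ι : Type} (A : Finset ι) : ι → ℝ := fun x => if x ∈ A then 1 else 0

/-- moving mass from `x₂` to `x₁` -/
theorem move {ι : Type} [Fintype ι] [DecidableEq ι] (Ψ : (ι → ℝ) → ℝ) (hΨ : ConvexOn ℝ Set.univ Ψ)
    (m : ℕ) (C : ℝ) (hC : ∀ A : Finset ι, A.card = m → Ψ (ind A) ≤ C) :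
    ∀ (n : ℕ) (a : ι → ℝ), (∀ x, 0 ≤ a x ∧ a x ≤ 1) → ∑ x, a x = m →
      (univ.filter fun x => a x ≠ 0 ∧ a x ≠ 1).card = n → Ψ a ≤ C := by
  intro n
  induction n using Nat.strong_induction_on with
  | _ n ih =>
    intro a ha hs hn
    by_cases hem : ∀ x, a x = 0 ∨ a x = 1
    · -- no fractional values
      have h1 : a = ind (univ.filter fun x => a x = 1) := by
        funext x
        unfold ind
        rcases hem x with h | h
        · rw [if_neg]
          · exact h
          · rw [mem_filter]
            intro h'
            rw [h] at h'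
            exact zero_ne_one h'.2
        · rw [if_pos]
          · exact h
          · rw [mem_filter]
            exact ⟨mem_univ _, h⟩
      have h2 : ((univ.filter fun x => a x = 1).card : ℝ) = m := by
        rw [← hs, Finset.card_filter]
        push_cast
        refine Finset.sum_congr rfl fun x _ => ?_
        rcases hem x with h | h
        · rw [h, if_neg zero_ne_one]
        · rw [h, if_pos rfl]
      rw [h1]
      exact hC _ (by exact_mod_cast h2)
    · obtain ⟨x₁, hx₁⟩ : ∃ x, ¬ (a x = 0 ∨ a x = 1) := by
        by_contra h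
        exact hem fun x => by
          by_contra h'
          exact h ⟨x, h'⟩
      -- a second fractional value
      obtain ⟨x₂, h21, hx₂⟩ : ∃ x, x ≠ x₁ ∧ ¬ (a x = 0 ∨ a x = 1) := by
        by_contra h
        have h' : ∀ x, x ≠ x₁ → a x = 0 ∨ a x = 1 := by
          intro x hx
          by_contra h'
          exact h ⟨x, hx, h'⟩
        have h3 : ∑ x, a x = a x₁ + ((univ.erase x₁).filter fun x => a x = 1).card := by
          rw [← Finset.add_sum_erase _ _ (mem_univ x₁), Finset.card_filter]
          congr 1
          push_cast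
          refine Finset.sum_congr rfl fun x hx => ?_
          rcases h' x (Finset.ne_of_mem_erase hx) with h | h
          · rw [h, if_neg zero_ne_one]
          · rw [h, if_pos rfl]
        rw [hs] at h3
        have h4 : 0 < a x₁ := lt_of_le_of_ne (ha x₁).1 (fun h => hx₁ (Or.inl h.symm))
        have h5 : a x₁ < 1 := lt_of_le_of_ne (ha x₁).2 (fun h => hx₁ (Or.inr h))
        have h6 : (((univ.erase x₁).filter fun x => a x = 1).card : ℝ) < m := by linarith
        have h7 : (m : ℝ) < (((univ.erase x₁).filter fun x => a x = 1).card : ℝ) + 1 := by linarith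
        have h8 : ((univ.erase x₁).filter fun x => a x = 1).card < m := by exact_mod_cast h6
        have h9 : m < ((univ.erase x₁).filter fun x => a x = 1).card + 1 := by exact_mod_cast h7
        omega
      have p1 : 0 < a x₁ := lt_of_le_of_ne (ha x₁).1 (fun h => hx₁ (Or.inl h.symm))
      have q1 : a x₁ < 1 := lt_of_le_of_ne (ha x₁).2 (fun h => hx₁ (Or.inr h))
      have p2 : 0 < a x₂ := lt_of_le_of_ne (ha x₂).1 (fun h => hx₂ (Or.inl h.symm))
      have q2 : a x₂ < 1 := lt_of_le_of_ne (ha x₂).2 (fun h => hx₂ (Or.inr h))
      -- the moved functions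
      have key : ∀ s : ℝ, -(min (a x₁) (1 - a x₂)) ≤ s → s ≤ min (1 - a x₁) (a x₂) →
          (s = -(min (a x₁) (1 - a x₂)) ∨ s = min (1 - a x₁) (a x₂)) →
          Ψ (fun x => a x + s * ((if x = x₁ then 1 else 0) - (if x = x₂ then 1 else 0))) ≤ C := by
        intro s hs1 hs2 hs3
        have l1 := min_le_left (a x₁) (1 - a x₂)
        have l2 := min_le_right (a x₁) (1 - a x₂)
        have l3 := min_le_left (1 - a x₁) (a x₂)
        have l4 := min_le_right (1 - a x₁) (a x₂)
        have v1 : a x₁ + s * ((if x₁ = x₁ then (1 : ℝ) else 0) - (if x₁ = x₂ then 1 else 0)) = a x₁ + s := by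
          rw [if_pos rfl, if_neg h21.symm]
          ring
        have v2 : a x₂ + s * ((if x₂ = x₁ then (1 : ℝ) else 0) - (if x₂ = x₂ then 1 else 0)) = a x₂ - s := by
          rw [if_pos rfl, if_neg h21]
          ring
        have v3 : ∀ x, x ≠ x₁ → x ≠ x₂ →
            a x + s * ((if x = x₁ then (1 : ℝ) else 0) - (if x = x₂ then 1 else 0)) = a x := by
          intro x h h'
          rw [if_neg h, if_neg h']
          ring
        have hsub : (univ.filter fun x => a x + s * ((if x = x₁ then (1 : ℝ) else 0) -
            (if x = x₂ then 1 else 0)) ≠ 0 ∧ a x + s * ((if x = x₁ then (1 : ℝ) else 0) -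
            (if x = x₂ then 1 else 0)) ≠ 1).card < n := by
          rw [← hn]
          apply Finset.card_lt_card
          rw [Finset.ssubset_iff_of_subset]
          · have hor : a x₁ + s = 0 ∨ a x₁ + s = 1 ∨ a x₂ - s = 0 ∨ a x₂ - s = 1 := by
              rcases hs3 with h | h
              · rcases min_choice (a x₁) (1 - a x₂) with h' | h'
                · rw [h'] at h
                  left
                  linarith
                · rw [h'] at h
                  right; right; right
                  linarith
              · rcases min_choice (1 - a x₁) (a x₂) with h' | h'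
                · rw [h'] at h
                  right; left
                  linarith
                · rw [h'] at h
                  right; right; left
                  linarith
            rcases hor with h | h | h | h
            · refine ⟨x₁, ?_, ?_⟩
              · rw [mem_filter]
                exact ⟨mem_univ _, fun h => hx₁ (Or.inl h), fun h => hx₁ (Or.inr h)⟩
              · rw [mem_filter, v1]
                exact fun h' => h'.2.1 h
            · refine ⟨x₁, ?_, ?_⟩
              · rw [mem_filter]
                exact ⟨mem_univ _, fun h => hx₁ (Or.inl h), fun h => hx₁ (Or.inr h)⟩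
              · rw [mem_filter, v1]
                exact fun h' => h'.2.2 h
            · refine ⟨x₂, ?_, ?_⟩
              · rw [mem_filter]
                exact ⟨mem_univ _, fun h => hx₂ (Or.inl h), fun h => hx₂ (Or.inr h)⟩
              · rw [mem_filter, v2]
                exact fun h' => h'.2.1 h
            · refine ⟨x₂, ?_, ?_⟩
              · rw [mem_filter]
                exact ⟨mem_univ _, fun h => hx₂ (Or.inl h), fun h => hx₂ (Or.inr h)⟩
              · rw [mem_filter, v2]
                exact fun h' => h'.2.2 h
          · intro x hx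
            rw [mem_filter] at hx ⊢
            refine ⟨mem_univ _, ?_⟩
            by_cases e1 : x = x₁
            · rw [e1]
              exact ⟨p1.ne', q1.ne⟩
            · by_cases e2 : x = x₂
              · rw [e2]
                exact ⟨p2.ne', q2.ne⟩
              · rw [v3 x e1 e2] at hx
                exact hx.2
        refine ih _ hsub _ ?_ ?_ rfl
        · intro x
          by_cases e1 : x = x₁
          · rw [e1, v1]
            constructor <;> linarith
          · by_cases e2 : x = x₂
            · rw [e2, v2]
              constructor <;> linarith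
            · rw [v3 x e1 e2]
              exact ha x
        · rw [Finset.sum_add_distrib, hs, ← Finset.mul_sum, Finset.sum_sub_distrib,
            Finset.sum_ite_eq' univ x₁, Finset.sum_ite_eq' univ x₂, if_pos (mem_univ _),
            if_pos (mem_univ _)]
          ring
      have s1 : 0 < min (a x₁) (1 - a x₂) := lt_min p1 (by linarith)
      have s2 : 0 < min (1 - a x₁) (a x₂) := lt_min (by linarith) p2
      have k1 := key _ le_rfl (by linarith) (Or.inl rfl)
      have k2 := key _ (by linarith) le_rfl (Or.inr rfl)
      generalize min (a x₁) (1 - a x₂) = t1 at s1 k1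
      generalize min (1 - a x₁) (a x₂) = t2 at s2 k2
      have c1 : t2 / (t1 + t2) + t1 / (t1 + t2) = 1 := by
        field_simp
        ring
      have c2 : 0 ≤ t2 / (t1 + t2) := by positivity
      have c3 : 0 ≤ t1 / (t1 + t2) := by positivity
      have hc := hΨ.2 (Set.mem_univ (fun x => a x + -t1 * ((if x = x₁ then 1 else 0) -
        (if x = x₂ then 1 else 0)))) (Set.mem_univ (fun x => a x + t2 * ((if x = x₁ then 1 else 0) -
        (if x = x₂ then 1 else 0)))) c2 c3 c1
      have he : (t2 / (t1 + t2)) • (fun x => a x + -t1 * ((if x = x₁ then (1 : ℝ) else 0) -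
          (if x = x₂ then 1 else 0))) + (t1 / (t1 + t2)) • (fun x => a x + t2 *
          ((if x = x₁ then (1 : ℝ) else 0) - (if x = x₂ then 1 else 0))) = a := by
        funext x
        simp only [Pi.add_apply, Pi.smul_apply, smul_eq_mul]
        field_simp
        ring
      rw [he] at hc
      simp only [smul_eq_mul] at hc
      calc Ψ a ≤ _ := hc
        _ ≤ t2 / (t1 + t2) * C + t1 / (t1 + t2) * C :=
            add_le_add (mul_le_mul_of_nonneg_left k1 c2) (mul_le_mul_of_nonneg_left k2 c3)
        _ = C := by rw [← add_mul, c1, one_mul]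

theorem convex_sum {ι κ : Type} [Fintype ι] [Fintype κ] (ph : ℝ → ℝ) (hph : ConvexOn ℝ Set.univ ph)
    (L : κ → ι → ℝ) : ConvexOn ℝ Set.univ (fun a : ι → ℝ => ∑ x, ph (∑ y, a y * L x y)) := by
  refine ⟨convex_univ, ?_⟩
  intro a _ b _ s t hs ht hst
  simp only [smul_eq_mul, Finset.mul_sum]
  rw [← Finset.sum_add_distrib]
  refine Finset.sum_le_sum fun x _ => ?_
  have h := hph.2 (Set.mem_univ (∑ y, a y * L x y)) (Set.mem_univ (∑ y, b y * L x y)) hs ht hst
  simp only [smul_eq_mul] at h
  have h1 : ∑ y, (s • a + t • b) y * L x y = s * ∑ y, a y * L x y + t * ∑ y, b y * L x y := by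
    rw [Finset.mul_sum, Finset.mul_sum, ← Finset.sum_add_distrib]
    refine Finset.sum_congr rfl fun y _ => ?_
    simp only [Pi.add_apply, Pi.smul_apply, smul_eq_mul]
    ring
  rw [h1]
  exact h

open Classical in
theorem count {p : ℕ} [Fact p.Prime] (A B : Finset (ZMod p)) (x : ZMod p) :
    ∑ y, ind A y * ind B (y + x) = (((A ×ˢ B).filter fun q => q.1 + x = q.2).card : ℝ) := by
  have h1 : ((A ×ˢ B).filter fun q => q.1 + x = q.2) =
      (univ.filter fun y : ZMod p => y ∈ A ∧ y + x ∈ B).image fun y => (y, y + x) := by
    ext q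
    simp only [mem_filter, mem_product, mem_image, mem_univ, true_and]
    constructor
    · rintro ⟨⟨h1, h2⟩, h3⟩
      exact ⟨q.1, ⟨h1, by rw [h3]; exact h2⟩, Prod.ext rfl h3⟩
    · rintro ⟨y, ⟨h1, h2⟩, rfl⟩
      exact ⟨⟨h1, h2⟩, rfl⟩
  rw [h1, Finset.card_image_of_injective _ (fun y z h => congrArg Prod.fst h), Finset.card_filter]
  push_cast
  refine Finset.sum_congr rfl fun y _ => ?_
  unfold ind
  by_cases h2 : y ∈ A
  · by_cases h3 : y + x ∈ B
    · rw [if_pos h2, if_pos h3, if_pos ⟨h2, h3⟩, one_mul]
    · have h4 : ¬ (y ∈ A ∧ y + x ∈ B) := fun h => h3 h.2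
      rw [if_neg h3, if_neg h4, mul_zero]
  · have h4 : ¬ (y ∈ A ∧ y + x ∈ B) := fun h => h2 h.1
    rw [if_neg h2, if_neg h4, zero_mul]

theorem pf_EXT (h : T_MAJ) : T_EXT := by
  intro p m _ a b ph hp ha hb hsa hsb hph
  -- the second function is an indicator
  have h1 : ∀ B : Finset (ZMod p), B.card = m →
      ∑ x : ZMod p, ph (∑ y, a y * ind B (y + x)) ≤ ∑ r ∈ range m, 2 * ph (r : ℝ) + ph (m : ℝ) := by
    intro B hB
    refine move (fun a : ZMod p → ℝ => ∑ x : ZMod p, ph (∑ y, a y * ind B (y + x)))
      (convex_sum ph hph fun x y => ind B (y + x)) m _ ?_ _ a ha hsa rfl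
    intro A hA
    have h2 := h p m A B ph hp hA hB hph
    simp only [count]
    exact h2
  -- the general case
  refine move (fun b : ZMod p → ℝ => ∑ x : ZMod p, ph (∑ y, a y * b (y + x))) ?_ m _ h1 _ b hb hsb rfl
  have h3 := convex_sum (ι := ZMod p) (κ := ZMod p) ph hph fun x z => a (z - x)
  have h4 : (fun b : ZMod p → ℝ => ∑ x : ZMod p, ph (∑ y, a y * b (y + x))) =
      fun b : ZMod p → ℝ => ∑ x : ZMod p, ph (∑ z, b z * a (z - x)) := by
    funext b
    refine Finset.sum_congr rfl fun x _ => ?_
    congr 1
    refine Fintype.sum_equiv (Equiv.addRight x) _ _ fun y => ?_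
    simp only [Equiv.coe_addRight, add_sub_cancel_right]
    ring
  rw [h4]
  exact h3

end Pool.Agent.H11.X
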