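import Pool.Agent.H83.X.T3

/-!
# MP_c59857_nt, Theorem X, row XCB: the trivial bound on a component
-/

set_option autoImplicit false

open MeasureTheory Finset

namespace Pool.Agent.H11.X

open Pool.Agent.H83.X
open Pool.Agent.H24.T2 (Pset)
open Pool.Agent.H67.AG (avgP)
open Pool.Agent.H28.LF (Xi Yi flY xiY CompY)
open Pool.Agent.H83.V (vl)

theorem abs_vl (z : Bool) (b : Bool × Bool) : |((vl z b : ℤ) : ℝ)| ≤ 1 := by
  unfold vl
  split_ifs <;> simp

theorem vR_mem (R : ℕ) (b : ℕ → Bool) : 0 ≤ vR R b ∧ vR R b ≤ 1 := by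
  unfold vR
  have h0 : 0 ≤ ∑ s ∈ range R, (if b s then (1 : ℝ) else 0) :=
    Finset.sum_nonneg fun s _ => by split_ifs <;> norm_num
  have h1 : ∑ s ∈ range R, (if b s then (1 : ℝ) else 0) ≤ R := by
    calc ∑ s ∈ range R, (if b s then (1 : ℝ) else 0) ≤ ∑ s ∈ range R, (1 : ℝ) :=
          Finset.sum_le_sum fun s _ => by split_ifs <;> norm_num
      _ = R := by simp
  refine ⟨div_nonneg h0 (Nat.cast_nonneg _), ?_⟩
  rcases Nat.eq_zero_or_pos R with h | h
  · rw [h]
    simp
  · have h2 : (0 : ℝ) < R := by exact_mod_cast h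
    rw [div_le_one h2]
    exact h1

theorem abs_fL {z : Bool} {h R L : ℕ} {c B : ℝ} {a b : Fin L → ℝ}
    (hB : ∀ l, |a l| + |b l| + |c| ≤ B) (l : Fin L) (ξ : Xi) : |fL z h R c a b l ξ| ≤ B := by
  unfold fL
  have h1 := vR_mem R (ξ 0).2
  have h2 : |gX z h ξ| ≤ 1 := by
    unfold gX
    rw [abs_mul]
    exact mul_le_one₀ (abs_vl _ _) (abs_nonneg _) (abs_vl _ _)
  rw [abs_mul, abs_of_nonneg h1.1]
  have h3 : |a l * gX z h ξ + b l - c| ≤ B := by
    calc |a l * gX z h ξ + b l - c| ≤ |a l * gX z h ξ + b l| + |c| := abs_sub _ _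
      _ ≤ |a l * gX z h ξ| + |b l| + |c| := by linarith [abs_add_le (a l * gX z h ξ) (b l)]
      _ ≤ |a l| + |b l| + |c| := by
          have : |a l * gX z h ξ| ≤ |a l| := by
            rw [abs_mul]
            exact mul_le_of_le_one_right (abs_nonneg _) h2
          linarith
      _ ≤ B := hB l
  calc vR R (ξ 0).2 * |a l * gX z h ξ + b l - c| ≤ 1 * B :=
        mul_le_mul h1.2 h3 (abs_nonneg _) zero_le_one
    _ = B := one_mul B

theorem meas_flY (p : ℕ) : MeasurableSet (flY p) := by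
  have h1 : Measurable fun ω : Yi => (ω 0).2.1 p :=
    (measurable_pi_apply p).comp (measurable_fst.comp (measurable_snd.comp (measurable_pi_apply 0)))
  exact h1 (measurableSet_singleton true)

theorem meas_xiY (p : ℕ) : Measurable (xiY p) :=
  (measurable_pi_apply p).comp (measurable_snd.comp (measurable_snd.comp (measurable_pi_apply 0)))

theorem pf_XCB (h1 : Pool.Agent.H28.LF.T_DVS) : T_XCB := by
  intro z h R L m c B a b F ν hR hF hB hν hne
  have hprob := hν.prob
  have hB0 : 0 ≤ B ∨ L = 0 := by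
    rcases Nat.eq_zero_or_pos L with h | h
    · exact Or.inr h
    · left
      have := hB ⟨0, h⟩
      have h2 := abs_nonneg (a ⟨0, h⟩)
      have h3 := abs_nonneg (b ⟨0, h⟩)
      have h4 := abs_nonneg c
      linarith
  have hL : L ≠ 0 := by
    intro h0
    obtain ⟨l, -, -⟩ := hF.par (fun _ => ((true, true), fun _ => true))
    rw [h0] at l
    exact l.elim0
  have hB1 : 0 ≤ B := hB0.resolve_right hL
  have key : ∀ p ∈ Pset 2 m,
      |∑ l, (p : ℝ) * ∫ ω in flY p ∩ xiY p ⁻¹' (F l), fL z h R c a b l (xiY p ω) ∂ν| ≤ B := by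
    intro p hp
    have hpp : p.Prime := by
      unfold Pset at hp
      exact (Finset.mem_filter.1 hp).2.1
    have hp0 : (0 : ℝ) < p := by exact_mod_cast hpp.pos
    have hsum : ∑ l, ν.real (flY p ∩ xiY p ⁻¹' (F l)) = 1 / p := by
      rw [← (h1 ν hν).1 p hpp.pos, ← measureReal_biUnion_finset]
      · congr 1
        ext ω
        simp only [Set.mem_iUnion, Finset.mem_univ, exists_prop, true_and, Set.mem_inter_iff,
          Set.mem_preimage]
        constructor
        · rintro ⟨l, h2, -⟩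
          exact h2
        · intro h2
          obtain ⟨l, hl, -⟩ := hF.par (xiY p ω)
          exact ⟨l, h2, hl⟩
      · intro l _ l' _ hll
        refine Set.disjoint_left.2 fun ω h2 h3 => hll ?_
        obtain ⟨l₀, -, hu⟩ := hF.par (xiY p ω)
        exact (hu l h2.2).trans (hu l' h3.2).symm
      · intro l _
        exact (meas_flY p).inter (meas_xiY p (hF.meas l))
    calc |∑ l, (p : ℝ) * ∫ ω in flY p ∩ xiY p ⁻¹' (F l), fL z h R c a b l (xiY p ω) ∂ν|
        ≤ ∑ l, |(p : ℝ) * ∫ ω in flY p ∩ xiY p ⁻¹' (F l), fL z h R c a b l (xiY p ω) ∂ν| :=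
          Finset.abs_sum_le_sum_abs _ _
      _ ≤ ∑ l, (p : ℝ) * (B * ν.real (flY p ∩ xiY p ⁻¹' (F l))) := by
          refine Finset.sum_le_sum fun l _ => ?_
          rw [abs_mul, abs_of_pos hp0]
          refine mul_le_mul_of_nonneg_left ?_ hp0.le
          have h2 := norm_setIntegral_le_of_norm_le_const (μ := ν)
            (s := flY p ∩ xiY p ⁻¹' (F l)) (f := fun ω => fL z h R c a b l (xiY p ω)) (C := B)
            (measure_lt_top ν _) (fun ω _ => abs_fL hB l _)
          exact h2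
      _ = B := by
          rw [← Finset.mul_sum, ← Finset.mul_sum, hsum]
          field_simp
  unfold avgP
  have hc : (0 : ℝ) < ((Pset 2 m).card : ℝ) := by exact_mod_cast Finset.card_pos.2 hne
  rw [abs_div, abs_of_pos hc, div_le_iff₀ hc]
  calc |∑ p ∈ Pset 2 m, ∑ l, (p : ℝ) * ∫ ω in flY p ∩ xiY p ⁻¹' (F l), fL z h R c a b l (xiY p ω) ∂ν|
      ≤ ∑ p ∈ Pset 2 m, |∑ l, (p : ℝ) * ∫ ω in flY p ∩ xiY p ⁻¹' (F l),
          fL z h R c a b l (xiY p ω) ∂ν| := Finset.abs_sum_le_sum_abs _ _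
    _ ≤ ∑ p ∈ Pset 2 m, B := Finset.sum_le_sum key
    _ = B * (Pset 2 m).card := by rw [Finset.sum_const, nsmul_eq_mul, mul_comm]

end Pool.Agent.H11.X
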